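import Pool.Agent.U79.MG.Def

set_option autoImplicit false

namespace Pool.Agent.U79.MG

open Finset Filter Topology

/-- If the rough part is prime, the list of the large prime factors is a singleton. -/
lemma filter_eq_singleton {p N : ℕ} (h : (roughPart p N).Prime) :
    N.primeFactorsList.filter (fun r => p < r) = [roughPart p N] := by
  have hpr : ∀ q ∈ N.primeFactorsList.filter (fun r => p < r), q.Prime := fun q hq =>
    Nat.prime_of_mem_primeFactorsList (List.mem_of_mem_filter hq)
  have h1 := Nat.primeFactorsList_unique (n := roughPart p N) rfl hpr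
  rw [Nat.primeFactorsList_prime h] at h1
  exact List.perm_singleton.1 h1

lemma lt_roughPart {p N : ℕ} (h : (roughPart p N).Prime) : p < roughPart p N := by
  have h1 : roughPart p N ∈ N.primeFactorsList.filter (fun r => p < r) := by
    rw [filter_eq_singleton h]
    exact List.mem_singleton.2 rfl
  simpa using (List.mem_filter.1 h1).2

lemma roughPart_of_le {p q N : ℕ} (h : (roughPart p N).Prime) (hpq : p ≤ q)
    (hq : q < roughPart p N) : roughPart q N = roughPart p N := by
  have h1 : N.primeFactorsList.filter (fun r => q < r) =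
      (N.primeFactorsList.filter (fun r => p < r)).filter (fun r => q < r) := by
    rw [List.filter_filter]
    refine List.filter_congr fun r _ => ?_
    by_cases hr : q < r
    · have : p < r := lt_of_le_of_lt hpq hr
      simp [hr, this]
    · simp [hr]
  conv_lhs => unfold roughPart
  rw [h1, filter_eq_singleton h]
  simp [hq]

lemma roughPart_mul_pow {q N : ℕ} (hN : N ≠ 0) (hq : 2 ≤ q) (j : ℕ) :
    roughPart q (N * 2 ^ j) = roughPart q N := by
  have hp : (N * 2 ^ j).primeFactorsList.Perm (N.primeFactorsList ++ (2 ^ j).primeFactorsList) :=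
    Nat.perm_primeFactorsList_mul hN (by positivity)
  have h2 := (hp.filter (fun r => decide (q < r))).prod_eq
  have h3 : ((2 ^ j : ℕ).primeFactorsList.filter (fun r => q < r)) = [] := by
    rw [Nat.prime_two.primeFactorsList_pow]
    rw [List.filter_eq_nil_iff]
    intro r hr
    have := List.eq_of_mem_replicate hr
    subst this
    simpa using (show 1 < q by omega)
  unfold roughPart
  rw [h2, List.filter_append, h3, List.append_nil]

lemma roughPart_of_factors_le {q N : ℕ} (h : ∀ r, r.Prime → r ∣ N → r ≤ q) : roughPart q N = 1 := by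
  have h3 : (N.primeFactorsList.filter (fun r => q < r)) = [] := by
    rw [List.filter_eq_nil_iff]
    intro r hr
    have := h r (Nat.prime_of_mem_primeFactorsList hr) (Nat.dvd_of_mem_primeFactorsList hr)
    simpa using this
  unfold roughPart
  rw [h3]
  rfl

lemma roughPart_prime {q N : ℕ} (hN : N.Prime) (h : q < N) : roughPart q N = N := by
  unfold roughPart
  rw [Nat.primeFactorsList_prime hN]
  simp [h]

/-- the digits of `β` after the `p`-th one vanish up to the `q`-th one -/
lemma ceil_run {β : ℝ} {N p q r : ℕ} (h1 : (N : ℝ) / 2 ^ p < β) (h2 : β ≤ N / 2 ^ p + (2 ^ q)⁻¹)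
    (hpr : p ≤ r) (hrq : r ≤ q) : ⌈β * 2 ^ r⌉₊ - 1 = N * 2 ^ (r - p) := by
  have hr : (2 : ℝ) ^ r = 2 ^ p * 2 ^ (r - p) := by
    rw [← pow_add]; congr 1; omega
  have hr2 : (2 : ℝ) ^ q = 2 ^ r * 2 ^ (q - r) := by
    rw [← pow_add]; congr 1; omega
  have h3 : ((N * 2 ^ (r - p) : ℕ) : ℝ) < β * 2 ^ r := by
    push_cast
    rw [hr, div_lt_iff₀ (by positivity)] at *
    nlinarith [show (0 : ℝ) < 2 ^ (r - p) by positivity]
  have h4 : β * 2 ^ r ≤ ((N * 2 ^ (r - p) : ℕ) : ℝ) + 1 := by
    push_cast
    have h5 : β * 2 ^ r ≤ (N / 2 ^ p + (2 ^ q)⁻¹) * 2 ^ r :=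
      mul_le_mul_of_nonneg_right h2 (by positivity)
    refine h5.trans ?_
    rw [add_mul]
    have h6 : (N : ℝ) / 2 ^ p * 2 ^ r = N * 2 ^ (r - p) := by
      rw [hr]; field_simp
    have h7 : ((2 : ℝ) ^ q)⁻¹ * 2 ^ r ≤ 1 := by
      rw [hr2, mul_inv, mul_comm, ← mul_assoc, mul_inv_cancel₀ (by positivity), one_mul]
      exact inv_le_one_of_one_le₀ (one_le_pow₀ (by norm_num))
    rw [h6]
    linarith
  have h8 : ⌈β * 2 ^ r⌉₊ = N * 2 ^ (r - p) + 1 := by
    rw [Nat.ceil_eq_iff (by omega)]
    refine ⟨?_, by exact_mod_cast h4⟩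
    simpa using h3
  rw [h8]
  rfl

/-- exponents along a run of zeros after a number with prime rough part -/
lemma W_run {β : ℝ} {N p q r : ℕ} (h1 : (N : ℝ) / 2 ^ p < β) (h2 : β ≤ N / 2 ^ p + (2 ^ q)⁻¹)
    (hN : (roughPart p N).Prime) (hp : 2 ≤ p) (hpr : p ≤ r) (hrq : r ≤ q)
    (hr : r < roughPart p N) : (W β r).Prime := by
  have hN0 : N ≠ 0 := by
    rintro rfl
    unfold roughPart at hN
    simp at hN
    exact absurd hN (by norm_num)
  unfold W
  rw [ceil_run h1 h2 hpr hrq, roughPart_mul_pow hN0 (hp.trans hpr), roughPart_of_le hN hpr hr]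
  exact hN

/-- no exponents along a run of zeros after a number without large prime factors -/
lemma not_W_run {β : ℝ} {N p q r : ℕ} (h1 : (N : ℝ) / 2 ^ p < β) (h2 : β ≤ N / 2 ^ p + (2 ^ q)⁻¹)
    (hN : 1 ≤ N) (hr2 : 2 ≤ r) (hNr : N ≤ r) (hpr : p ≤ r) (hrq : r ≤ q) : ¬ (W β r).Prime := by
  unfold W
  rw [ceil_run h1 h2 hpr hrq, roughPart_mul_pow (by omega) hr2, roughPart_of_factors_le]
  · exact Nat.not_prime_one
  · intro s _ hs
    exact (Nat.le_of_dvd (by omega) hs).trans hNr

lemma M_mono (β : ℝ) : Monotone (M β) := by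
  intro m n h
  unfold M
  refine card_le_card ?_
  refine filter_subset_filter _ ?_
  intro x hx
  rw [mem_range] at *
  omega

lemma M_succ_le (β : ℝ) (n : ℕ) : M β n ≤ n + 1 := by
  unfold M
  exact (card_filter_le _ _).trans (by rw [card_range])

lemma M_ge {β : ℝ} {p n : ℕ} (h : ∀ r, r.Prime → p ≤ r → r ≤ n → (W β r).Prime) :
    Nat.primeCounting n ≤ Nat.primeCounting p + M β n := by
  have h1 : Nat.primeCounting n = ((range (n + 1)).filter Nat.Prime).card := by
    rw [Nat.primeCounting, Nat.primeCounting', Nat.count_eq_card_filter_range]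
  have h2 : Nat.primeCounting p = ((range (p + 1)).filter Nat.Prime).card := by
    rw [Nat.primeCounting, Nat.primeCounting', Nat.count_eq_card_filter_range]
  rw [h1, h2]
  unfold M
  refine (card_le_card ?_).trans (card_union_le _ _)
  intro r hr
  rw [mem_filter, mem_range] at hr
  rw [mem_union, mem_filter, mem_filter, mem_range, mem_range]
  by_cases hrp : p ≤ r
  · exact Or.inr ⟨hr.1, hr.2, h r hr.2 hrp (by omega)⟩
  · exact Or.inl ⟨by omega, hr.2⟩

lemma M_eq_of_not {β : ℝ} {m n : ℕ} (hmn : m ≤ n)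
    (h : ∀ r, m < r → r ≤ n → ¬ (W β r).Prime) : M β n = M β m := by
  unfold M
  congr 1
  ext r
  rw [mem_filter, mem_filter, mem_range, mem_range]
  constructor
  · rintro ⟨h1, h2, h3⟩
    refine ⟨?_, h2, h3⟩
    by_contra hc
    exact h r (by omega) (by omega) h3
  · rintro ⟨h1, h2, h3⟩
    exact ⟨by omega, h2, h3⟩

end Pool.Agent.U79.MG
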