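import Pool.Agent.H305R2.Smooth

set_option autoImplicit false

namespace Pool.Agent.U79.MG

open Filter Topology

lemma pi_ratio {u v : ℝ} (hu : 0 < u) (hv : 0 < v) :
    Tendsto (fun x : ℝ => (Nat.primeCounting ⌊u * x⌋₊ : ℝ) / Nat.primeCounting ⌊v * x⌋₊) atTop
      (𝓝 (u / v)) := by
  have hP := Pool.Agent.Helper601.PNT.pi_tendsto
  have hu' : Tendsto (fun x : ℝ => u * x) atTop atTop := tendsto_id.const_mul_atTop hu
  have hv' : Tendsto (fun x : ℝ => v * x) atTop atTop := tendsto_id.const_mul_atTop hv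
  have h3 := (hP.comp hu').div (hP.comp hv') one_ne_zero
  have h4 : Tendsto (fun x : ℝ => Real.log (v * x) / Real.log (u * x)) atTop (𝓝 1) := by
    have h5 : Tendsto (fun x : ℝ => 1 + (Real.log v - Real.log u) * (Real.log (u * x))⁻¹) atTop
        (𝓝 (1 + (Real.log v - Real.log u) * 0)) :=
      ((tendsto_inv_atTop_zero.comp (Real.tendsto_log_atTop.comp hu')).const_mul _).const_add 1
    rw [mul_zero, add_zero] at h5
    refine h5.congr' ?_
    filter_upwards [eventually_gt_atTop 0, hu'.eventually_gt_atTop 1] with x hx hx1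
    have hl : 0 < Real.log (u * x) := Real.log_pos hx1
    rw [Real.log_mul hu.ne' hx.ne'] at *
    rw [Real.log_mul hv.ne' hx.ne']
    field_simp
    ring
  have h5 := (h3.mul h4).mul_const (u / v)
  rw [div_one, one_mul, one_mul] at h5
  refine h5.congr' ?_
  filter_upwards [eventually_gt_atTop 0, hu'.eventually_gt_atTop 1, hv'.eventually_gt_atTop 2]
    with x hx hx1 hx2
  have hl : 0 < Real.log (u * x) := Real.log_pos hx1
  have hl2 : 0 < Real.log (v * x) := Real.log_pos (by linarith)
  have hpos : 0 < Nat.primeCounting ⌊v * x⌋₊ := by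
    have h6 : 2 ≤ ⌊v * x⌋₊ := Nat.le_floor (by exact_mod_cast hx2.le)
    have h7 := Nat.monotone_primeCounting h6
    have h8 : Nat.primeCounting 2 = 1 := by decide
    omega
  have hpos' : (0 : ℝ) < Nat.primeCounting ⌊v * x⌋₊ := by exact_mod_cast hpos
  simp only [Function.comp, Pi.div_apply]
  generalize Real.log (u * x) = lu at *
  generalize Real.log (v * x) = lv at *
  generalize (Nat.primeCounting ⌊u * x⌋₊ : ℝ) = A at *
  generalize (Nat.primeCounting ⌊v * x⌋₊ : ℝ) = B at *
  field_simp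

lemma exists_prime_of_lt {a b : ℕ} (h : Nat.primeCounting a < Nat.primeCounting b) :
    ∃ N : ℕ, N.Prime ∧ a < N ∧ N ≤ b := by
  by_contra hcon
  push Not at hcon
  refine absurd h (not_lt.2 ?_)
  simp only [Nat.primeCounting, Nat.primeCounting', Nat.count_eq_card_filter_range]
  refine Finset.card_le_card ?_
  intro r hr
  rw [Finset.mem_filter, Finset.mem_range] at *
  refine ⟨?_, hr.2⟩
  by_contra hc
  have := hcon r hr.2 (by omega)
  omega

lemma prime_between {u v : ℝ} (hu : 0 < u) (huv : u < v) :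
    ∀ᶠ x : ℝ in atTop, ∃ N : ℕ, N.Prime ∧ u * x < N ∧ (N : ℝ) < v * x := by
  obtain ⟨w, hw1, hw2⟩ := exists_between huv
  have hw : 0 < w := hu.trans hw1
  have h1 := (pi_ratio hu hw).eventually_lt_const ((div_lt_one hw).2 hw1)
  filter_upwards [h1, eventually_gt_atTop 0,
    (tendsto_id.const_mul_atTop hw : Tendsto (fun x : ℝ => w * x) atTop atTop).eventually_gt_atTop 2]
    with x hx hx0 hx2
  have hpos : 0 < Nat.primeCounting ⌊w * x⌋₊ := by
    have h6 : 2 ≤ ⌊w * x⌋₊ := Nat.le_floor (by exact_mod_cast hx2.le)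
    have h7 := Nat.monotone_primeCounting h6
    have h8 : Nat.primeCounting 2 = 1 := by decide
    omega
  have hpos' : (0 : ℝ) < Nat.primeCounting ⌊w * x⌋₊ := by exact_mod_cast hpos
  rw [div_lt_one hpos'] at hx
  obtain ⟨N, hN, hN1, hN2⟩ := exists_prime_of_lt (by exact_mod_cast hx)
  refine ⟨N, hN, (Nat.floor_lt (by positivity)).1 hN1, ?_⟩
  calc (N : ℝ) ≤ ⌊w * x⌋₊ := by exact_mod_cast hN2
    _ ≤ w * x := Nat.floor_le (by positivity)
    _ < v * x := by gcongr

lemma pi_window {s : ℝ} (hs : 0 < s) {ε : ℝ} (hε : 0 < ε) :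
    ∀ᶠ k : ℕ in atTop, (Nat.primeCounting k : ℝ) ≤ (1 / s + ε) * Nat.primeCounting ⌊s * k⌋₊ := by
  have h1 := (pi_ratio one_pos hs).eventually_lt_const (show 1 / s < 1 / s + ε by linarith)
  have h2 := (tendsto_natCast_atTop_atTop (R := ℝ)).eventually h1
  filter_upwards [h2, (tendsto_natCast_atTop_atTop (R := ℝ)).eventually
    ((tendsto_id.const_mul_atTop hs : Tendsto (fun x : ℝ => s * x) atTop atTop).eventually_gt_atTop 2)]
    with k hk hk2
  have hpos : 0 < Nat.primeCounting ⌊s * k⌋₊ := by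
    have h6 : 2 ≤ ⌊s * (k : ℝ)⌋₊ := Nat.le_floor (by exact_mod_cast hk2.le)
    have h7 := Nat.monotone_primeCounting h6
    have h8 : Nat.primeCounting 2 = 1 := by decide
    omega
  have hpos' : (0 : ℝ) < Nat.primeCounting ⌊s * k⌋₊ := by exact_mod_cast hpos
  rw [one_mul, Nat.floor_natCast, div_lt_iff₀ hpos'] at hk
  exact hk.le

lemma pi_div_log_tendsto :
    Tendsto (fun n : ℕ => (Nat.primeCounting n : ℝ) / Real.log n) atTop atTop := by
  have h := Pool.Agent.Helper601.PNT.pi_tendsto.comp (tendsto_natCast_atTop_atTop (R := ℝ))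
  have h2 : Tendsto (fun n : ℕ => (n : ℝ) / Real.log n ^ 2) atTop atTop := by
    have h3 := Real.tendsto_pow_log_div_mul_add_atTop 1 0 2 one_ne_zero
    have h4 : Tendsto (fun x : ℝ => (Real.log x ^ 2 / (1 * x + 0))⁻¹) atTop atTop := by
      refine Tendsto.inv_tendsto_nhdsGT_zero ?_
      rw [tendsto_nhdsWithin_iff]
      refine ⟨h3, ?_⟩
      filter_upwards [eventually_gt_atTop 1] with x hx
      have := Real.log_pos hx
      have : 0 < x := by linarith
      simp only [Set.mem_Ioi]
      positivity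
    refine (h4.comp (tendsto_natCast_atTop_atTop (R := ℝ))).congr fun n => ?_
    simp only [Function.comp, one_mul, add_zero, inv_div]
  have h5 := h2.atTop_mul_pos one_pos h
  refine h5.congr' ?_
  filter_upwards [eventually_ge_atTop 2] with n hn
  have hn2 : (2 : ℝ) ≤ n := by exact_mod_cast hn
  have hl : 0 < Real.log n := Real.log_pos (by linarith)
  simp only [Function.comp, Nat.floor_natCast]
  field_simp

end Pool.Agent.U79.MG
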