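import Pool.Agent.U79.MG.A
import Pool.Agent.U79.MG.B
import Pool.Agent.W66.ST

set_option autoImplicit false

namespace Pool.Agent.U79.MG

open Filter Topology MeasureTheory
open scoped ENNReal

/-- the starting result: the law for almost every amplitude -/
lemma law_ae : ∀ᵐ β : ℝ, 0 < β → Tendsto (fun n : ℕ => (M β n : ℝ) / Real.log n) atTop
    (𝓝 (Real.exp Real.eulerMascheroniConstant / Real.log 2)) := by
  have h := Pool.Agent.W66S.law_base (b := 2) le_rfl
  simp only [Nat.cast_ofNat] at h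
  exact h

lemma ceil_bounds {β : ℝ} (hβ : 0 < β) (p : ℕ) :
    ((⌈β * 2 ^ p⌉₊ - 1 : ℕ) : ℝ) / 2 ^ p < β ∧
      β ≤ ((⌈β * 2 ^ p⌉₊ - 1 : ℕ) : ℝ) / 2 ^ p + (2 ^ p)⁻¹ := by
  have hx : 0 < β * 2 ^ p := by positivity
  have h0 : 0 < ⌈β * 2 ^ p⌉₊ := Nat.ceil_pos.2 hx
  have h1 : (⌈β * 2 ^ p⌉₊ : ℝ) < β * 2 ^ p + 1 := Nat.ceil_lt_add_one hx.le
  have h2 : β * 2 ^ p ≤ ⌈β * 2 ^ p⌉₊ := Nat.le_ceil _
  have h3 : ((⌈β * 2 ^ p⌉₊ - 1 : ℕ) : ℝ) = (⌈β * 2 ^ p⌉₊ : ℝ) - 1 := by
    rw [Nat.cast_sub (by omega)]; simp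
  have h4 : (0 : ℝ) < 2 ^ p := by positivity
  rw [h3]
  constructor
  · rw [div_lt_iff₀ h4]; linarith
  · rw [← one_div, ← add_div, le_div_iff₀ h4]; linarith

/-- the set of the amplitudes for which the number at `p` is smooth -/
noncomputable def E (K B p : ℕ) : Set ℝ :=
  ⋃ N ∈ Nat.smoothNumbersUpTo (B * 2 ^ p) (K * p + 1),
    Set.Ioc ((N : ℝ) / 2 ^ p) ((N : ℝ) / 2 ^ p + (2 ^ p)⁻¹)

lemma vol_E_le (K B p : ℕ) : volume (E K B p) ≤
    ENNReal.ofReal (2 ^ (Nat.primeCounting (K * p)) * Real.sqrt (B * 2 ^ p) * (2 ^ p)⁻¹) := by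
  have h1 : volume (E K B p) ≤ ∑ N ∈ Nat.smoothNumbersUpTo (B * 2 ^ p) (K * p + 1),
      ENNReal.ofReal ((2 ^ p)⁻¹) := by
    refine (measure_biUnion_finset_le _ _).trans (Finset.sum_le_sum fun N _ => ?_)
    rw [Real.volume_Ioc]
    simp
  refine h1.trans ?_
  rw [Finset.sum_const, nsmul_eq_mul, ← ENNReal.ofReal_natCast, ← ENNReal.ofReal_mul (by positivity)]
  refine ENNReal.ofReal_le_ofReal ?_
  refine mul_le_mul_of_nonneg_right ?_ (by positivity)
  have h2 := Nat.smoothNumbersUpTo_card_le (B * 2 ^ p) (K * p + 1)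
  have h3 : (K * p + 1).primesBelow.card = Nat.primeCounting (K * p) := by
    rw [Nat.primesBelow_card_eq_primeCounting', Nat.primeCounting]
  rw [h3] at h2
  calc ((Nat.smoothNumbersUpTo (B * 2 ^ p) (K * p + 1)).card : ℝ)
      ≤ ((2 ^ (Nat.primeCounting (K * p)) * Nat.sqrt (B * 2 ^ p) : ℕ) : ℝ) := by exact_mod_cast h2
    _ = 2 ^ (Nat.primeCounting (K * p)) * (Nat.sqrt (B * 2 ^ p) : ℝ) := by push_cast; ring
    _ ≤ _ := by
      refine mul_le_mul_of_nonneg_left ?_ (by positivity)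
      refine Real.le_sqrt_of_sq_le ?_
      have := Nat.sqrt_le' (B * 2 ^ p)
      exact_mod_cast this

lemma summable_bound (K B : ℕ) : Summable (fun p : ℕ =>
    (2 : ℝ) ^ (Nat.primeCounting (K * p)) * Real.sqrt (B * 2 ^ p) * (2 ^ p)⁻¹) := by
  have hg : Summable (fun p : ℕ => Real.sqrt B * ((2 : ℝ) ^ (-(1 / 4 : ℝ))) ^ p) := by
    refine Summable.mul_left _ (summable_geometric_of_lt_one (by positivity) ?_)
    exact Real.rpow_lt_one_of_one_lt_of_neg (by norm_num) (by norm_num)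
  refine Summable.of_norm_bounded_eventually_nat hg ?_
  have hpi : ∀ᶠ p : ℕ in atTop, (Nat.primeCounting (K * p) : ℝ) ≤ p / 4 := by
    rcases Nat.eq_zero_or_pos K with hK | hK
    · subst hK
      filter_upwards with p
      simp only [zero_mul]
      have : Nat.primeCounting 0 = 0 := by decide
      rw [this]; push_cast; positivity
    have h1 := Pool.Agent.H305R2.primeCounting_div_tendsto.eventually_lt_const
      (show (0 : ℝ) < 1 / (4 * K) by positivity)
    have h2 : Tendsto (fun p : ℕ => K * p) atTop atTop :=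
      Filter.tendsto_id.const_mul_atTop' hK
    filter_upwards [h2.eventually h1, eventually_gt_atTop 0] with p hp hp0
    have hK' : (0 : ℝ) < K := by exact_mod_cast hK
    have hp' : (0 : ℝ) < p := by exact_mod_cast hp0
    push_cast at hp
    rw [div_lt_div_iff₀ (by positivity) (by positivity)] at hp
    have h3 : (Nat.primeCounting (K * p) : ℝ) * 4 * K < p * K := by nlinarith
    have h4 := lt_of_mul_lt_mul_right h3 hK'.le
    linarith
  filter_upwards [hpi] with p hp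
  rw [Real.norm_of_nonneg (by positivity)]
  have e1 : (2 : ℝ) ^ (Nat.primeCounting (K * p)) ≤ (2 : ℝ) ^ ((p : ℝ) / 4) := by
    rw [← Real.rpow_natCast]
    exact Real.rpow_le_rpow_of_exponent_le (by norm_num) hp
  have e2 : Real.sqrt (B * 2 ^ p) = Real.sqrt B * (2 : ℝ) ^ ((p : ℝ) / 2) := by
    rw [Real.sqrt_mul (by positivity)]
    congr 1
    rw [Real.sqrt_eq_rpow, ← Real.rpow_natCast, ← Real.rpow_mul (by norm_num)]
    congr 1
    ring
  have e3 : ((2 : ℝ) ^ p)⁻¹ = (2 : ℝ) ^ (-(p : ℝ)) := by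
    rw [Real.rpow_neg (by norm_num), Real.rpow_natCast]
  have e4 : ((2 : ℝ) ^ (-(1 / 4 : ℝ))) ^ p = (2 : ℝ) ^ ((p : ℝ) / 4) * (2 : ℝ) ^ ((p : ℝ) / 2) *
      (2 : ℝ) ^ (-(p : ℝ)) := by
    rw [← Real.rpow_natCast, ← Real.rpow_mul (by norm_num), ← Real.rpow_add (by norm_num),
      ← Real.rpow_add (by norm_num)]
    congr 1
    ring
  rw [e2, e3, e4]
  calc (2 : ℝ) ^ (Nat.primeCounting (K * p)) * (Real.sqrt B * (2 : ℝ) ^ ((p : ℝ) / 2)) *
        (2 : ℝ) ^ (-(p : ℝ))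
      ≤ (2 : ℝ) ^ ((p : ℝ) / 4) * (Real.sqrt B * (2 : ℝ) ^ ((p : ℝ) / 2)) *
        (2 : ℝ) ^ (-(p : ℝ)) := by gcongr
    _ = _ := by ring

lemma ae_not_mem_E (K B : ℕ) : ∀ᵐ β : ℝ, ∀ᶠ p : ℕ in atTop, β ∉ E K B p := by
  refine ae_eventually_notMem ?_
  refine ne_top_of_le_ne_top ?_ (ENNReal.tsum_le_tsum (vol_E_le K B))
  exact (summable_bound K B).tsum_ofReal_ne_top

lemma ae_frequently : ∀ᵐ β : ℝ, 0 < β → ∀ K : ℕ, ∃ᶠ p : ℕ in atTop, p.Prime ∧
    (roughPart p (⌈β * 2 ^ p⌉₊ - 1)).Prime ∧ K * p < roughPart p (⌈β * 2 ^ p⌉₊ - 1) := by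
  have hE : ∀ᵐ β : ℝ, ∀ K B : ℕ, ∀ᶠ p : ℕ in atTop, β ∉ E K B p := by
    rw [ae_all_iff]; intro K
    rw [ae_all_iff]; intro B
    exact ae_not_mem_E K B
  filter_upwards [law_ae, hE] with β h1 h2 hβ K
  have hlaw := h1 hβ
  have hκ : 0 < Real.exp Real.eulerMascheroniConstant / Real.log 2 := by
    have := Real.log_pos (show (1 : ℝ) < 2 by norm_num)
    positivity
  have hM : Tendsto (fun n : ℕ => (M β n : ℝ)) atTop atTop := by
    have h3 := (Real.tendsto_log_atTop.comp (tendsto_natCast_atTop_atTop (R := ℝ))).atTop_mul_pos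
      hκ hlaw
    refine h3.congr' ?_
    filter_upwards [eventually_ge_atTop 2] with n hn
    have hn2 : (2 : ℝ) ≤ n := by exact_mod_cast hn
    have hl : 0 < Real.log n := Real.log_pos (by linarith)
    simp only [Function.comp]
    field_simp
  have hfreq : ∃ᶠ p : ℕ in atTop, p.Prime ∧ (W β p).Prime := by
    rw [Filter.frequently_atTop]
    intro n
    by_contra hcon
    push Not at hcon
    obtain ⟨m, hm⟩ := (hM.eventually_gt_atTop ((M β n : ℝ))).and (eventually_ge_atTop n) |>.exists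
    have h4 : M β m = M β n := by
      unfold M
      congr 1
      ext r
      rw [Finset.mem_filter, Finset.mem_filter, Finset.mem_range, Finset.mem_range]
      constructor
      · rintro ⟨h5, h6, h7⟩
        refine ⟨?_, h6, h7⟩
        by_contra hc
        exact hcon r (by omega) h6 h7
      · rintro ⟨h5, h6, h7⟩
        exact ⟨by omega, h6, h7⟩
    rw [h4] at hm
    exact absurd hm.1 (lt_irrefl _)
  obtain ⟨B, hB⟩ := exists_nat_ge β
  have h5 := h2 (K + 1) B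
  refine (hfreq.and_eventually (h5.and (eventually_ge_atTop 1))).mono ?_
  rintro p ⟨⟨hp, hW⟩, hp2, hp1⟩
  refine ⟨hp, hW, ?_⟩
  by_contra hcon
  push Not at hcon
  refine hp2 ?_
  set N : ℕ := ⌈β * 2 ^ p⌉₊ - 1 with hN
  have hb := ceil_bounds hβ p
  rw [← hN] at hb
  have hN0 : N ≠ 0 := by
    intro h0
    have h6 : W β p = roughPart p 0 := by rw [← h0]; rfl
    rw [h6] at hW
    unfold roughPart at hW
    simp at hW
    exact absurd hW (by norm_num)
  refine Set.mem_biUnion (x := N) ?_ ⟨hb.1, hb.2⟩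
  rw [Finset.mem_coe, Nat.mem_smoothNumbersUpTo]
  refine ⟨?_, ?_⟩
  · have h6 : (N : ℝ) ≤ ((B * 2 ^ p : ℕ) : ℝ) := by
      have h7 := hb.1
      rw [div_lt_iff₀ (by positivity)] at h7
      push_cast
      nlinarith [show (0 : ℝ) < 2 ^ p by positivity]
    exact_mod_cast h6
  · rw [Nat.mem_smoothNumbers]
    refine ⟨hN0, fun r hr => ?_⟩
    by_cases hrp : r ≤ p
    · nlinarith
    · push Not at hrp
      have h6 : r ∈ N.primeFactorsList.filter (fun r => p < r) := by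
        rw [List.mem_filter]
        exact ⟨hr, by simpa using hrp⟩
      rw [filter_eq_singleton hW, List.mem_singleton] at h6
      rw [h6]
      have h7 : W β p ≤ K * p := hcon
      nlinarith [hcon]

end Pool.Agent.U79.MG
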