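import Pool.Agent.U79.MG.C
import Pool.Agent.R485.RG.Mtp

set_option autoImplicit false

namespace Pool.Agent.U79.MG

open Filter Topology MeasureTheory Set
open scoped ENNReal

lemma ae_affine {P : ℝ → Prop} (h : ∀ᵐ x : ℝ, P x) (a : ℝ) {L : ℝ} (hL : 0 < L) :
    ∀ᵐ y : ℝ, P (a + L * y) := by
  rw [ae_iff] at *
  have h1 : {y : ℝ | ¬ P (a + L * y)} = (fun y => L * y) ⁻¹' ((fun z => a + z) ⁻¹' {x | ¬ P x}) := rfl
  rw [h1, Real.volume_preimage_mul_left hL.ne', measure_preimage_add, h, mul_zero]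

lemma small_radius {t L s : ℝ} (ht : 0 < t) (hL : 0 < L) (hs0 : 0 ≤ s) (hs : s < 1 / t) :
    ∀ᶠ k : ℕ in atTop, L * (4 / L * (2 ^ k)⁻¹) ^ (1 / t) ≤ (2 ^ (⌊s * k⌋₊ + 1))⁻¹ := by
  set δ : ℝ := 1 / t - s with hδ
  have hδ0 : 0 < δ := by rw [hδ]; linarith
  have h1 : Tendsto (fun k : ℕ => ((2 : ℝ) ^ δ) ^ k) atTop atTop :=
    tendsto_pow_atTop_atTop_of_one_lt (Real.one_lt_rpow (by norm_num) hδ0)
  filter_upwards [h1.eventually_ge_atTop (2 * (L * (4 / L) ^ (1 / t)))] with k hk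
  have e1 : (4 / L * ((2 : ℝ) ^ k)⁻¹) ^ (1 / t) = (4 / L) ^ (1 / t) * (2 : ℝ) ^ (-(k / t : ℝ)) := by
    rw [Real.mul_rpow (by positivity) (by positivity)]
    congr 1
    rw [← Real.rpow_natCast, ← Real.rpow_neg (by norm_num), ← Real.rpow_mul (by norm_num)]
    congr 1
    ring
  have e2 : (2 : ℝ) ^ (-(s * k + 1)) ≤ (2 ^ (⌊s * (k : ℝ)⌋₊ + 1))⁻¹ := by
    rw [← Real.rpow_natCast, ← Real.rpow_neg (by norm_num)]
    refine Real.rpow_le_rpow_of_exponent_le (by norm_num) ?_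
    push_cast
    have := Nat.floor_le (show 0 ≤ s * (k : ℝ) by positivity)
    linarith
  refine le_trans ?_ e2
  have e3 : ((2 : ℝ) ^ δ) ^ k = (2 : ℝ) ^ (k / t : ℝ) * (2 : ℝ) ^ (-(s * k)) := by
    rw [← Real.rpow_natCast, ← Real.rpow_mul (by norm_num), ← Real.rpow_add (by norm_num)]
    congr 1
    rw [hδ]
    ring
  have e4 : (2 : ℝ) ^ (-(k / t : ℝ)) * (2 : ℝ) ^ (k / t : ℝ) = 1 := by
    rw [← Real.rpow_add (by norm_num)]
    simp
  have e5 : (2 : ℝ) ^ (-(s * k + 1)) = (2 : ℝ) ^ (-(s * k)) / 2 := by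
    rw [neg_add, Real.rpow_add (by norm_num), Real.rpow_neg_one]
    ring
  rw [e1, e5]
  rw [e3] at hk
  have hp : (0 : ℝ) < (2 : ℝ) ^ (-(k / t : ℝ)) := by positivity
  have h6 := mul_le_mul_of_nonneg_right hk hp.le
  have h7 : (2 : ℝ) ^ (k / t : ℝ) * (2 : ℝ) ^ (-(s * k)) * (2 : ℝ) ^ (-(k / t : ℝ)) =
      (2 : ℝ) ^ (-(s * k)) := by
    rw [mul_comm, ← mul_assoc, e4, one_mul]
  rw [h7] at h6
  linarith

/-- The amplitudes for which, for infinitely many `n`, the exponents are at least the proportion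
`1 - t` of the primes up to `n` (`t` arbitrarily little increased). -/
def Many (t : ℝ) : Set ℝ :=
  {β | ∀ ε : ℝ, 0 < ε → ∃ᶠ n : ℕ in atTop, (1 - t - ε) * Nat.primeCounting n ≤ M β n}

/-- the lengths of the runs -/
noncomputable def sl (t : ℝ) (i : ℕ) : ℝ := 1 + (1 / t - 1) * (1 - 1 / ((i : ℝ) + 2))

lemma sl_ge {t : ℝ} (ht0 : 0 < t) (ht1 : t < 1) (i : ℕ) : 1 ≤ sl t i := by
  unfold sl
  have h1 : 1 < 1 / t := by rw [lt_div_iff₀ ht0]; linarith
  have h2 : 1 / ((i : ℝ) + 2) ≤ 1 := by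
    rw [div_le_one (by positivity)]
    have : (0 : ℝ) ≤ i := by positivity
    linarith
  nlinarith

lemma sl_lt {t : ℝ} (ht0 : 0 < t) (ht1 : t < 1) (i : ℕ) : sl t i < 1 / t := by
  unfold sl
  have h1 : 1 < 1 / t := by rw [lt_div_iff₀ ht0]; linarith
  have h2 : 0 < 1 / ((i : ℝ) + 2) := by positivity
  nlinarith

lemma sl_tendsto (t : ℝ) : Tendsto (sl t) atTop (𝓝 (1 / t)) := by
  have h1 : Tendsto (fun i : ℕ => 1 / ((i : ℝ) + 2)) atTop (𝓝 0) := by
    have := tendsto_const_div_atTop_nhds_zero_nat (1 : ℝ)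
    have h2 := this.comp (tendsto_add_atTop_nat 2)
    refine h2.congr fun i => ?_
    simp
  have h2 : Tendsto (fun i : ℕ => 1 + (1 / t - 1) * (1 - 1 / ((i : ℝ) + 2))) atTop
      (𝓝 (1 + (1 / t - 1) * (1 - 0))) := ((h1.const_sub 1).const_mul _).const_add 1
  rw [sub_zero, mul_one, add_sub_cancel] at h2
  exact h2

theorem dim_many {t a b : ℝ} (ht0 : 0 < t) (ht1 : t < 1) (ha : 0 ≤ a) (hab : a < b)
    (m : ℕ → ℝ) (hm : ∀ j, 0 < m j) :
    ENNReal.ofReal t ≤ dimH ({β : ℝ | ∀ j, m j * β ∈ Many t} ∩ Icc a b) := by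
  set L : ℝ := b - a with hLdef
  have hL : 0 < L := by rw [hLdef]; linarith
  set K : ℕ := ⌈1 / t⌉₊ with hK
  have hLj : ∀ j, 0 < m j * L := fun j => mul_pos (hm j) hL
  let C : ℕ → ℕ → Set ℝ := fun e k => {c | ∃ N : ℕ, 2 ≤ k ∧ (roughPart k N).Prime ∧
    K * k < roughPart k N ∧ m e.unpair.2 * a + (m e.unpair.2 * L) * c =
      N / 2 ^ k + (2 ^ (⌊sl t e.unpair.1 * k⌋₊ + 1))⁻¹}
  let ρ : ℕ → ℕ → ℝ := fun e k => 4 / (m e.unpair.2 * L) * (2 ^ k)⁻¹
  have hρ : ∀ i k, 0 < ρ i k := fun i k => by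
    have := hLj i.unpair.2
    show 0 < 4 / (m i.unpair.2 * L) * ((2 : ℝ) ^ k)⁻¹
    positivity
  have hρ0 : ∀ i, Tendsto (ρ i) atTop (𝓝 0) := by
    intro i
    have h1 : Tendsto (fun k : ℕ => ((2 : ℝ) ^ k)⁻¹) atTop (𝓝 0) :=
      tendsto_inv_atTop_zero.comp (tendsto_pow_atTop_atTop_of_one_lt (by norm_num))
    have h2 := h1.const_mul (4 / (m i.unpair.2 * L))
    rw [mul_zero] at h2
    exact h2
  have hfull : ∀ i, ∀ᵐ y ∂(volume : Measure ℝ), y ∈ Ioo 0 1 →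
      ∃ᶠ k in atTop, ∃ c ∈ C i k, |y - c| < ρ i k := by
    intro e
    set i := e.unpair.1 with hi
    set j := e.unpair.2 with hj
    have hLe := hLj j
    filter_upwards [ae_affine ae_frequently (m j * a) (hLj j)] with y hy hy1
    have hx : 0 < m j * a + (m j * L) * y := by
      have h1 := mul_pos hLe hy1.1
      have h2 := mul_nonneg (hm j).le ha
      linarith
    refine ((hy hx K).and_eventually (eventually_ge_atTop 2)).mono ?_
    rintro k ⟨⟨_, hk1, hk2⟩, hk3⟩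
    set x : ℝ := m j * a + (m j * L) * y with hxdef
    set N : ℕ := ⌈x * 2 ^ k⌉₊ - 1 with hN
    have hb := ceil_bounds hx k
    rw [← hN] at hb
    refine ⟨(N / 2 ^ k + (2 ^ (⌊sl t i * k⌋₊ + 1))⁻¹ - m j * a) / (m j * L),
      ⟨N, hk3, hk1, hk2, ?_⟩, ?_⟩
    · have h3 := hLe.ne'
      rw [mul_div_cancel₀ _ h3]
      ring
    · have hq : k ≤ ⌊sl t i * k⌋₊ := by
        refine Nat.le_floor ?_
        have := sl_ge ht0 ht1 i
        have hk0 : (0 : ℝ) ≤ k := by positivity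
        nlinarith
      have hr : ((2 : ℝ) ^ (⌊sl t i * k⌋₊ + 1))⁻¹ ≤ (2 ^ k)⁻¹ := by
        refine inv_anti₀ (by positivity) ?_
        exact pow_le_pow_right₀ (by norm_num) (by omega)
      have hr0 : (0 : ℝ) < (2 ^ (⌊sl t i * k⌋₊ + 1))⁻¹ := by positivity
      have hr1 : (0 : ℝ) < (2 ^ k)⁻¹ := by positivity
      have e1 : y - (N / 2 ^ k + (2 ^ (⌊sl t i * k⌋₊ + 1))⁻¹ - m j * a) / (m j * L) =
          (x - (N / 2 ^ k + (2 ^ (⌊sl t i * k⌋₊ + 1))⁻¹)) / (m j * L) := by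
        rw [hxdef, eq_div_iff hLe.ne', sub_mul, div_mul_cancel₀ _ hLe.ne']
        ring
      rw [e1, abs_div, abs_of_pos hLe]
      show _ < 4 / (m j * L) * (2 ^ k)⁻¹
      rw [div_lt_iff₀ hLe]
      have e2 : 4 / (m j * L) * ((2 : ℝ) ^ k)⁻¹ * (m j * L) = 4 * (2 ^ k)⁻¹ := by
        rw [mul_right_comm, div_mul_cancel₀ _ hLe.ne']
      rw [e2, abs_lt]
      constructor <;> linarith [hb.1, hb.2]
  have hdim := Pool.Agent.R485.RG.dimI ht0 ht1.le C ρ hρ hρ0 hfull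
  set f : ℝ → ℝ := fun y => a + L * y with hf
  have hanti : AntilipschitzWith (L⁻¹).toNNReal f := by
    refine AntilipschitzWith.of_le_mul_dist fun x y => ?_
    rw [Real.coe_toNNReal _ (by positivity), Real.dist_eq, Real.dist_eq, hf]
    have : a + L * x - (a + L * y) = L * (x - y) := by ring
    simp only [this]
    rw [abs_mul, abs_of_pos hL, ← mul_assoc, inv_mul_cancel₀ hL.ne', one_mul]
  refine (hdim.trans (hanti.le_dimH_image _)).trans (dimH_mono ?_)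
  rintro _ ⟨y, ⟨hy1, hy2⟩, rfl⟩
  refine ⟨?_, ?_⟩
  · intro j ε hε
    have hLe := hLj j
    -- choose the index
    have h1 : Tendsto (fun i => 1 / sl t i) atTop (𝓝 (1 / (1 / t))) :=
      tendsto_const_nhds.div (sl_tendsto t) (by positivity)
    rw [one_div_one_div] at h1
    obtain ⟨i, hi⟩ := (h1.eventually_lt_const (show t < t + ε / 2 by linarith)).exists
    have hsi := sl_ge ht0 ht1 i
    have hev := ((small_radius ht0 hLe (zero_le_one.trans hsi) (sl_lt ht0 ht1 i)).and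
      (pi_window (by linarith : 0 < sl t i) (half_pos hε)))
    rw [Filter.frequently_atTop]
    intro n0
    have hy3 := hy2 (Nat.pair i j)
    obtain ⟨k, ⟨c, ⟨N, hk2, hN1, hN2, hc⟩, hyc⟩, ⟨hk3, hk4⟩, hk5⟩ :=
      (hy3.and_eventually (hev.and (eventually_ge_atTop n0))).exists
    simp only [Nat.unpair_pair, ρ] at hc hyc
    set q : ℕ := ⌊sl t i * k⌋₊ with hq
    have hkq : k ≤ q := by
      refine Nat.le_floor ?_
      have hk0 : (0 : ℝ) ≤ k := by positivity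
      nlinarith
    have hqK : q ≤ K * k := by
      have h2 : (q : ℝ) ≤ sl t i * k := Nat.floor_le (by positivity)
      have h3 : sl t i ≤ K := (sl_lt ht0 ht1 i).le.trans (Nat.le_ceil _)
      have h4 : sl t i * k ≤ K * k := mul_le_mul_of_nonneg_right h3 (by positivity)
      exact_mod_cast h2.trans h4
    refine ⟨q, hk5.trans hkq, ?_⟩
    set x : ℝ := m j * f y with hxd
    have hx : |x - (N / 2 ^ k + (2 ^ (q + 1))⁻¹)| < (2 ^ (q + 1))⁻¹ := by
      rw [← hc]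
      have e : x - (m j * a + m j * L * c) = (m j * L) * (y - c) := by rw [hxd, hf]; ring
      rw [e, abs_mul, abs_of_pos hLe]
      exact (mul_lt_mul_of_pos_left hyc hLe).trans_le hk3
    rw [abs_lt] at hx
    have e2 : ((2 : ℝ) ^ q)⁻¹ = 2 * (2 ^ (q + 1))⁻¹ := by
      rw [pow_succ]; field_simp
    have hx1 : (N : ℝ) / 2 ^ k < x := by linarith [hx.1]
    have hx2 : x ≤ N / 2 ^ k + (2 ^ q)⁻¹ := by rw [e2]; linarith [hx.2]
    have hM := M_ge (β := x) (p := k) (n := q) (fun r _ hr1 hr2 =>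
      W_run hx1 hx2 hN1 hk2 hr1 hr2 (by omega))
    have hM' : (Nat.primeCounting q : ℝ) ≤ Nat.primeCounting k + M x q := by exact_mod_cast hM
    have h5 : (1 / sl t i + ε / 2) * (Nat.primeCounting q : ℝ) ≤ (t + ε) * Nat.primeCounting q := by
      refine mul_le_mul_of_nonneg_right ?_ (by positivity)
      linarith
    linarith
  · rw [hf]
    constructor
    · have := mul_nonneg hL.le hy1.1
      simp only
      linarith
    · have := mul_le_mul_of_nonneg_left hy1.2 hL.le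
      simp only
      rw [mul_one] at this
      linarith

end Pool.Agent.U79.MG
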