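import Mathlib

set_option autoImplicit false

/-!
The numbers whose prime values are counted in the law of Lenstra, Pomerance and Wagstaff for a real
amplitude `β` (as in the starting result `BaseTwoLaw`): `W β 0, W β 1, …`; for `β = 1` and prime `p`
the number `W 1 p` is the Mersenne number `2 ^ p - 1`.
-/

namespace Pool.Agent.U79.MG

/-- The product, with multiplicity, of the prime factors of `m` that are larger than `p`. -/
def roughPart (p m : ℕ) : ℕ := (m.primeFactorsList.filter (fun r => p < r)).prod

/-- The `p`-rough part of the largest integer below `β * 2 ^ p`. -/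
noncomputable def W (β : ℝ) (p : ℕ) : ℕ := roughPart p (⌈β * 2 ^ p⌉₊ - 1)

/-- The number of primes `p ≤ n` for which `W β p` is prime. -/
noncomputable def M (β : ℝ) (n : ℕ) : ℕ :=
  ((Finset.range (n + 1)).filter (fun p => p.Prime ∧ (W β p).Prime)).card

end Pool.Agent.U79.MG
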