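import Pool.Agent.U79.MG.D

set_option autoImplicit false

namespace Pool.Agent.U79.MG

open Filter Topology MeasureTheory Set
open scoped ENNReal

/-- runs of zeros after a prime -/
def G1 (n0 : ℕ) : Set ℝ :=
  Iio 0 ∪ ⋃ (x : ℕ × ℕ) (_ : n0 ≤ x.2 ∧ 2 ≤ x.2 ∧ x.2 < x.1 ∧ x.1.Prime),
    Ioo ((x.1 : ℝ) / 2 ^ x.2) ((x.1 : ℝ) / 2 ^ x.2 + (2 ^ x.1)⁻¹)

/-- long runs of zeros -/
def G2 (F : ℕ → ℕ) (n0 : ℕ) : Set ℝ :=
  Iio 0 ∪ ⋃ (x : ℕ × ℕ) (_ : 1 ≤ x.1),
    Ioo ((x.1 : ℝ) / 2 ^ x.2) ((x.1 : ℝ) / 2 ^ x.2 + (2 ^ (F (x.1 + x.2 + n0 + 2)))⁻¹)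

lemma dense_aux {S : Set ℝ} (h : ∀ u v : ℝ, 0 < u → u < v → (Ioo u v ∩ S).Nonempty)
    (h0 : Iio (0 : ℝ) ⊆ S) : Dense S := by
  rw [dense_iff_inter_open]
  intro U hU hne
  obtain ⟨x, hx⟩ := hne
  obtain ⟨δ, hδ, hball⟩ := Metric.isOpen_iff.1 hU x hx
  rw [Real.ball_eq_Ioo] at hball
  rcases lt_or_ge x 0 with hx0 | hx0
  · exact ⟨x, hx, h0 hx0⟩
  · obtain ⟨z, hz1, hz2⟩ := h (x + δ / 2) (x + δ) (by linarith) (by linarith)
    exact ⟨z, hball ⟨by linarith [hz1.1], hz1.2⟩, hz2⟩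

lemma isOpen_G1 (n0 : ℕ) : IsOpen (G1 n0) :=
  isOpen_Iio.union (isOpen_iUnion fun _ => isOpen_iUnion fun _ => isOpen_Ioo)

lemma isOpen_G2 (F : ℕ → ℕ) (n0 : ℕ) : IsOpen (G2 F n0) :=
  isOpen_Iio.union (isOpen_iUnion fun _ => isOpen_iUnion fun _ => isOpen_Ioo)

lemma tendsto_two_pow : Tendsto (fun p : ℕ => (2 : ℝ) ^ p) atTop atTop :=
  tendsto_pow_atTop_atTop_of_one_lt (by norm_num)

lemma dense_G1 (n0 : ℕ) : Dense (G1 n0) := by
  refine dense_aux (fun u v hu huv => ?_) subset_union_left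
  have h1 := tendsto_two_pow.eventually (prime_between hu huv)
  have h2 : Tendsto (fun p : ℕ => u * ((2 : ℝ) ^ p / p)) atTop atTop := by
    refine Tendsto.const_mul_atTop hu ?_
    have h3 := tendsto_pow_const_div_const_pow_of_one_lt 1 (show (1 : ℝ) < 2 by norm_num)
    have h4 : Tendsto (fun n : ℕ => ((n : ℝ) ^ 1 / 2 ^ n)⁻¹) atTop atTop := by
      refine Tendsto.inv_tendsto_nhdsGT_zero ?_
      rw [tendsto_nhdsWithin_iff]
      refine ⟨h3, ?_⟩
      filter_upwards [eventually_gt_atTop 0] with n hn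
      have : (0 : ℝ) < n := by exact_mod_cast hn
      simp only [mem_Ioi]
      positivity
    refine h4.congr fun n => ?_
    rw [pow_one, inv_div]
  obtain ⟨p, ⟨N, hN, hN1, hN2⟩, hp1, hp2, hp3⟩ := (h1.and ((h2.eventually_gt_atTop 1).and
    ((eventually_ge_atTop n0).and (eventually_ge_atTop 2)))).exists
  have hp0 : (0 : ℝ) < p := by exact_mod_cast (by omega : 0 < p)
  have h2p : (0 : ℝ) < 2 ^ p := by positivity
  have hpN : p < N := by
    have h5 : (p : ℝ) < u * 2 ^ p := by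
      rw [← mul_div_assoc, lt_div_iff₀ hp0, one_mul] at hp1
      exact hp1
    exact_mod_cast h5.trans hN1
  have hlow : u < (N : ℝ) / 2 ^ p := by rwa [lt_div_iff₀ h2p]
  have hup : (N : ℝ) / 2 ^ p < v := by rwa [div_lt_iff₀ h2p]
  obtain ⟨z, hz1, hz2⟩ := exists_between
    (show (N : ℝ) / 2 ^ p < min v ((N : ℝ) / 2 ^ p + (2 ^ N)⁻¹) by
      rw [lt_min_iff]
      exact ⟨hup, by have : (0 : ℝ) < (2 ^ N)⁻¹ := by positivity
                     linarith⟩)
  rw [lt_min_iff] at hz2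
  refine ⟨z, ⟨hlow.trans hz1, hz2.1⟩, Or.inr ?_⟩
  rw [mem_iUnion₂]
  exact ⟨(N, p), ⟨hp2, hp3, hpN, hN⟩, hz1, hz2.2⟩

lemma dense_G2 (F : ℕ → ℕ) (n0 : ℕ) : Dense (G2 F n0) := by
  refine dense_aux (fun u v hu huv => ?_) subset_union_left
  obtain ⟨p, hp⟩ := (tendsto_two_pow.eventually_gt_atTop (1 / (v - u))).exists
  have h2p : (0 : ℝ) < 2 ^ p := by positivity
  have hd : 0 < v - u := by linarith
  have hp' : 1 < (v - u) * 2 ^ p := by
    rw [div_lt_iff₀ hd] at hp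
    linarith
  set N : ℕ := ⌊u * 2 ^ p⌋₊ + 1 with hN
  have h1 : u * 2 ^ p < N := by rw [hN]; push_cast; exact Nat.lt_floor_add_one _
  have h2 : (N : ℝ) ≤ u * 2 ^ p + 1 := by
    rw [hN]; push_cast
    have := Nat.floor_le (show 0 ≤ u * 2 ^ p by positivity)
    linarith
  have hlow : u < (N : ℝ) / 2 ^ p := by rwa [lt_div_iff₀ h2p]
  have hup : (N : ℝ) / 2 ^ p < v := by
    rw [div_lt_iff₀ h2p]
    nlinarith
  obtain ⟨z, hz1, hz2⟩ := exists_between
    (show (N : ℝ) / 2 ^ p < min v ((N : ℝ) / 2 ^ p + (2 ^ (F (N + p + n0 + 2)))⁻¹) by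
      rw [lt_min_iff]
      exact ⟨hup, by have : (0 : ℝ) < (2 ^ (F (N + p + n0 + 2)))⁻¹ := by positivity
                     linarith⟩)
  rw [lt_min_iff] at hz2
  refine ⟨z, ⟨hlow.trans hz1, hz2.1⟩, Or.inr ?_⟩
  rw [mem_iUnion₂]
  exact ⟨(N, p), by omega, hz1, hz2.2⟩

theorem generic_windows : ∀ᶠ β : ℝ in residual ℝ, 0 < β → ∃ᶠ n : ℕ in atTop,
    ∀ r : ℕ, r.Prime → n ≤ r → (r : ℝ) < β * 2 ^ n - 1 → (W β r).Prime := by
  have h : ∀ᶠ β : ℝ in residual ℝ, ∀ n0 : ℕ, β ∈ G1 n0 :=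
    eventually_countable_forall.2 fun n0 => residual_of_dense_open (isOpen_G1 n0) (dense_G1 n0)
  filter_upwards [h] with β hβ hβ0
  rw [Filter.frequently_atTop]
  intro n0
  rcases hβ n0 with hneg | hmem
  · exact absurd hβ0 (not_lt.2 (le_of_lt hneg))
  rw [mem_iUnion₂] at hmem
  obtain ⟨⟨N, p⟩, ⟨hp1, hp2, hpN, hN⟩, hz1, hz2⟩ := hmem
  simp only at hp1 hp2 hpN hN hz1 hz2
  refine ⟨p, hp1, fun r _ hr1 hr2 => ?_⟩
  have h2p : (0 : ℝ) < 2 ^ p := by positivity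
  have h3 : β * 2 ^ p ≤ N + 1 := by
    have h4 : β * 2 ^ p ≤ (N / 2 ^ p + (2 ^ N)⁻¹) * 2 ^ p :=
      mul_le_mul_of_nonneg_right hz2.le h2p.le
    have h5 : ((N : ℝ) / 2 ^ p + (2 ^ N)⁻¹) * 2 ^ p = N + (2 ^ N)⁻¹ * 2 ^ p := by
      field_simp
    have h6 : ((2 : ℝ) ^ N)⁻¹ * 2 ^ p ≤ 1 := by
      rw [inv_mul_le_iff₀ (by positivity), mul_one]
      exact pow_le_pow_right₀ (by norm_num) hpN.le
    linarith
  have hrN : r < N := by
    have : (r : ℝ) < N := by linarith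
    exact_mod_cast this
  have hrp : roughPart p N = N := roughPart_prime hN hpN
  exact W_run hz1 hz2.le (by rw [hrp]; exact hN) hp2 hr1 hrN.le (by rw [hrp]; exact hrN)

theorem generic_gaps (F : ℕ → ℕ) : ∀ᶠ β : ℝ in residual ℝ, 0 < β → ∃ᶠ n : ℕ in atTop,
    ∀ r : ℕ, n < r → r ≤ F n → ¬ (W β r).Prime := by
  have h : ∀ᶠ β : ℝ in residual ℝ, ∀ n0 : ℕ, β ∈ G2 F n0 :=
    eventually_countable_forall.2 fun n0 => residual_of_dense_open (isOpen_G2 F n0) (dense_G2 F n0)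
  filter_upwards [h] with β hβ hβ0
  rw [Filter.frequently_atTop]
  intro n0
  rcases hβ n0 with hneg | hmem
  · exact absurd hβ0 (not_lt.2 (le_of_lt hneg))
  rw [mem_iUnion₂] at hmem
  obtain ⟨⟨N, p⟩, hN, hz1, hz2⟩ := hmem
  simp only at hN hz1 hz2
  refine ⟨N + p + n0 + 2, by omega, fun r hr1 hr2 => ?_⟩
  exact not_W_run hz1 hz2.le hN (by omega) (by omega) (by omega) hr2

lemma many_zero_of_windows {β : ℝ} (hβ : 0 < β) (h : ∃ᶠ n : ℕ in atTop,
    ∀ r : ℕ, r.Prime → n ≤ r → (r : ℝ) < β * 2 ^ n - 1 → (W β r).Prime) {ε : ℝ} (hε : 0 < ε) :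
    ∃ᶠ n : ℕ in atTop, (1 - ε) * Nat.primeCounting n ≤ M β n := by
  have h2 : ∀ᶠ p : ℕ in atTop, ((p ^ 2 : ℕ) : ℝ) < β * 2 ^ p - 1 := by
    have h3 := tendsto_pow_const_div_const_pow_of_one_lt 2 (show (1 : ℝ) < 2 by norm_num)
    filter_upwards [h3.eventually_lt_const (show (0 : ℝ) < β / 2 by positivity),
      tendsto_two_pow.eventually_gt_atTop (2 / β)] with p hp1 hp2
    have h2p : (0 : ℝ) < 2 ^ p := by positivity
    rw [div_lt_iff₀ h2p] at hp1
    rw [div_lt_iff₀ hβ] at hp2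
    push_cast
    linarith
  have h4 := pi_window (show 0 < 2 / ε by positivity) (half_pos hε)
  rw [Filter.frequently_atTop]
  intro n0
  obtain ⟨p, hp, hp2, hp4, hp5, hp6⟩ := (h.and_eventually (h2.and (h4.and
    ((eventually_ge_atTop (n0 + 1)).and
      ((tendsto_natCast_atTop_atTop (R := ℝ)).eventually_ge_atTop (2 / ε)))))).exists
  refine ⟨p ^ 2, by nlinarith, ?_⟩
  have h5 : Nat.primeCounting (p ^ 2) ≤ Nat.primeCounting p + M β (p ^ 2) := by
    refine M_ge fun r hr hr1 hr2 => hp r hr hr1 (lt_of_le_of_lt ?_ hp2)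
    exact_mod_cast hr2
  have h6 : Nat.primeCounting ⌊2 / ε * (p : ℝ)⌋₊ ≤ Nat.primeCounting (p ^ 2) := by
    refine Nat.monotone_primeCounting (Nat.floor_le_of_le ?_)
    push_cast
    have : (0 : ℝ) ≤ p := by positivity
    nlinarith
  have h7 : (Nat.primeCounting p : ℝ) ≤ ε * Nat.primeCounting (p ^ 2) := by
    have e : 1 / (2 / ε) + ε / 2 = ε := by field_simp; norm_num
    rw [e] at hp4
    refine hp4.trans (mul_le_mul_of_nonneg_left (by exact_mod_cast h6) hε.le)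
  have h8 : (Nat.primeCounting (p ^ 2) : ℝ) ≤ Nat.primeCounting p + M β (p ^ 2) := by
    exact_mod_cast h5
  linarith

/-- unbounded quotient -/
lemma frequently_large {β θ : ℝ} (hθ : 0 < θ)
    (h : ∃ᶠ n : ℕ in atTop, θ * Nat.primeCounting n ≤ M β n) (v : ℝ) :
    ∃ᶠ n : ℕ in atTop, v < (M β n : ℝ) / Real.log n := by
  refine (h.and_eventually ((pi_div_log_tendsto.eventually_gt_atTop (v / θ)).and
    (eventually_ge_atTop 2))).mono ?_
  rintro n ⟨hn, hn1, hn2⟩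
  have hn2' : (2 : ℝ) ≤ n := by exact_mod_cast hn2
  have hl : 0 < Real.log n := Real.log_pos (by linarith)
  rw [lt_div_iff₀ hl] at *
  have h1 := mul_lt_mul_of_pos_left hn1 hθ
  have h2 : θ * (v / θ * Real.log n) = v * Real.log n := by field_simp
  linarith

/-- the quotient moves slowly, so that all intermediate values are limit points -/
lemma limit_points {β : ℝ} (hlarge : ∀ v : ℝ, ∃ᶠ n : ℕ in atTop, v < (M β n : ℝ) / Real.log n)
    (hgap : ∃ᶠ n : ℕ in atTop, ∀ r : ℕ, n < r → r ≤ 2 ^ (n ^ 2) → ¬ (W β r).Prime)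
    {v ε : ℝ} (hv : 0 ≤ v) (hε : 0 < ε) :
    ∃ᶠ n : ℕ in atTop, |(M β n : ℝ) / Real.log n - v| < ε := by
  set v' : ℝ := v + ε / 2 with hv'
  have hv'0 : 0 < v' := by rw [hv']; linarith
  have hlog : Tendsto (fun n : ℕ => Real.log n) atTop atTop :=
    Real.tendsto_log_atTop.comp (tendsto_natCast_atTop_atTop (R := ℝ))
  have ha : ∀ᶠ n : ℕ in atTop, v - ε < v' * (Real.log n / Real.log (n + 1 : ℕ)) := by
    have h1 : Tendsto (fun n : ℕ => v' * (Real.log n / Real.log (n + 1 : ℕ))) atTop (𝓝 (v' * 1)) := by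
      refine Tendsto.const_mul _ ?_
      have h2 : Tendsto (fun n : ℕ => 1 - (Real.log (n + 1 : ℕ) - Real.log n) *
          (Real.log (n + 1 : ℕ))⁻¹) atTop (𝓝 (1 - 0 * 0)) := by
        refine Tendsto.const_sub _ (Tendsto.mul ?_ ?_)
        · have h3 := Real.tendsto_log_nat_add_one_sub_log
          refine h3.congr fun n => ?_
          push_cast
          rfl
        · exact tendsto_inv_atTop_zero.comp (hlog.comp (tendsto_add_atTop_nat 1))
      rw [mul_zero, sub_zero] at h2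
      refine h2.congr' ?_
      filter_upwards [eventually_ge_atTop 2] with n hn
      have hn2 : (2 : ℝ) ≤ (n + 1 : ℕ) := by exact_mod_cast (by omega : 2 ≤ n + 1)
      have hl : 0 < Real.log (n + 1 : ℕ) := Real.log_pos (by linarith)
      field_simp
      ring
    refine h1.eventually_const_lt ?_
    rw [mul_one, hv']
    linarith
  have hb : ∀ᶠ m : ℕ in atTop, ((m : ℝ) + 1) / (m ^ 2 * Real.log 2) < v' := by
    have h1 : Tendsto (fun m : ℕ => (m : ℝ)⁻¹ * ((1 + (m : ℝ)⁻¹) / Real.log 2)) atTop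
        (𝓝 (0 * ((1 + 0) / Real.log 2))) := by
      have h2 : Tendsto (fun m : ℕ => (m : ℝ)⁻¹) atTop (𝓝 0) :=
        tendsto_inv_atTop_zero.comp (tendsto_natCast_atTop_atTop (R := ℝ))
      exact h2.mul ((h2.const_add 1).div_const _)
    rw [zero_mul] at h1
    filter_upwards [h1.eventually_lt_const hv'0, eventually_gt_atTop 0] with m hm hm0
    have hm0' : (0 : ℝ) < m := by exact_mod_cast hm0
    have hl2 := Real.log_pos (show (1 : ℝ) < 2 by norm_num)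
    have e : ((m : ℝ) + 1) / (m ^ 2 * Real.log 2) = (m : ℝ)⁻¹ * ((1 + (m : ℝ)⁻¹) / Real.log 2) := by
      field_simp
    rw [e]
    exact hm
  obtain ⟨n1', hn1'⟩ := eventually_atTop.1 (ha.and (eventually_ge_atTop 2))
  rw [Filter.frequently_atTop]
  intro n0
  obtain ⟨n1, hlar, hn1⟩ := ((hlarge v').and_eventually (eventually_ge_atTop (n0 + n1' + 2))).exists
  obtain ⟨m, hgm, hbm, hm⟩ := (hgap.and_eventually (hb.and (eventually_ge_atTop (n1 + 2)))).exists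
  have hex : ∃ n : ℕ, n1 ≤ n ∧ (M β n : ℝ) / Real.log n ≤ v' := by
    have hle : m ≤ 2 ^ (m ^ 2) := by
      have h1 : m < 2 ^ m := Nat.lt_two_pow_self
      have h2 : 2 ^ m ≤ 2 ^ (m ^ 2) := Nat.pow_le_pow_right (by norm_num) (by nlinarith)
      omega
    refine ⟨2 ^ (m ^ 2), by omega, ?_⟩
    rw [M_eq_of_not hle hgm]
    have h1 : Real.log ((2 ^ (m ^ 2) : ℕ) : ℝ) = m ^ 2 * Real.log 2 := by
      push_cast
      rw [Real.log_pow]
      push_cast
      ring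
    rw [h1]
    refine le_trans ?_ hbm.le
    have h2 : (M β m : ℝ) ≤ m + 1 := by exact_mod_cast M_succ_le β m
    have hl2 := Real.log_pos (show (1 : ℝ) < 2 by norm_num)
    gcongr
  classical
  set n := Nat.find hex with hn
  have hspec := Nat.find_spec hex
  rw [← hn] at hspec
  have hne : n ≠ n1 := by
    intro h
    rw [h] at hspec
    exact absurd hlar (not_lt.2 hspec.2)
  have hn1n : n1 ≤ n - 1 := by omega
  have hprev : v' < (M β (n - 1) : ℝ) / Real.log ((n - 1 : ℕ) : ℝ) := by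
    by_contra hc
    push Not at hc
    exact Nat.find_min hex (show n - 1 < n by omega) ⟨hn1n, hc⟩
  refine ⟨n, by omega, ?_⟩
  have h1 := (hn1' (n - 1) (by omega)).1
  have e : n - 1 + 1 = n := by omega
  rw [e] at h1
  have hln : 0 < Real.log (n : ℝ) := Real.log_pos (by exact_mod_cast (by omega : 1 < n))
  have hln1 : 0 < Real.log ((n - 1 : ℕ) : ℝ) :=
    Real.log_pos (by exact_mod_cast (by omega : 1 < n - 1))
  have h2 : v' * (Real.log ((n - 1 : ℕ) : ℝ) / Real.log n) ≤ (M β n : ℝ) / Real.log n := by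
    rw [← mul_div_assoc]
    refine div_le_div_of_nonneg_right ?_ hln.le
    rw [lt_div_iff₀ hln1] at hprev
    have h3 : (M β (n - 1) : ℝ) ≤ M β n := by exact_mod_cast M_mono β (by omega)
    linarith
  rw [abs_lt]
  constructor
  · linarith
  · have := hspec.2
    rw [hv'] at this
    linarith

/-- The law fails, and the quotient is unbounded, on a set of dimension one. -/
theorem dim_fail {a b : ℝ} (ha : 0 ≤ a) (hab : a < b) (m : ℕ → ℝ) (hm : ∀ j, 0 < m j) :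
    dimH {β : ℝ | β ∈ Icc a b ∧ ∀ j, ∀ v : ℝ, ∃ᶠ n : ℕ in atTop,
      v < (M (m j * β) n : ℝ) / Real.log n} = 1 := by
  refine le_antisymm ?_ ?_
  · calc _ ≤ dimH (univ : Set ℝ) := dimH_mono (subset_univ _)
      _ = 1 := Real.dimH_univ
  · refine le_of_forall_lt fun c hc => ?_
    have hct : c ≠ ⊤ := ne_top_of_lt hc
    set r : ℝ := c.toReal with hr
    have hcr : c = ENNReal.ofReal r := (ENNReal.ofReal_toReal hct).symm
    have hr0 : 0 ≤ r := ENNReal.toReal_nonneg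
    have hr1 : r < 1 := by
      rw [hcr, ← ENNReal.ofReal_one] at hc
      exact (ENNReal.ofReal_lt_ofReal_iff one_pos).1 hc
    have h1 := dim_many (t := (r + 1) / 2) (by linarith) (by linarith) ha hab m hm
    rw [hcr]
    refine lt_of_lt_of_le ((ENNReal.ofReal_lt_ofReal_iff (by linarith)).2
      (by linarith : r < (r + 1) / 2)) (h1.trans (dimH_mono ?_))
    rintro β ⟨hβ1, hβ2⟩
    refine ⟨hβ2, fun j v => ?_⟩
    have h2 := hβ1 j ((1 - (r + 1) / 2) / 2) (by linarith)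
    have h3 : ∃ᶠ n : ℕ in atTop,
        ((1 - (r + 1) / 2) / 2) * (Nat.primeCounting n : ℝ) ≤ M (m j * β) n := by
      refine h2.mono fun n hn => ?_
      have e : 1 - (r + 1) / 2 - (1 - (r + 1) / 2) / 2 = (1 - (r + 1) / 2) / 2 := by ring
      rwa [e] at hn
    exact frequently_large (by linarith) h3 v

/-- the anchor: at `β = 1` the numbers are the Mersenne numbers -/
lemma M_one (n : ℕ) :
    M 1 n = ((Finset.range (n + 1)).filter (fun p => p.Prime ∧ (2 ^ p - 1).Prime)).card := by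
  unfold M
  congr 1
  refine Finset.filter_congr fun p _ => and_congr_right fun hp => ?_
  have h := Pool.Agent.W66S.repunit_special (b := 2) le_rfl hp (by
    intro h
    exact hp.one_lt.ne' (Nat.dvd_one.1 h))
  have e1 : ⌈(1 / (((2 : ℕ) : ℝ) - 1)) * ((2 : ℕ) : ℝ) ^ p⌉₊ = ⌈(1 : ℝ) * 2 ^ p⌉₊ := by
    congr 1
    push_cast
    norm_num
  rw [e1, Nat.geomSum_eq le_rfl] at h
  have e2 : W 1 p = 2 ^ p - 1 := by
    have h2 : W 1 p = Pool.Agent.H305R2.roughPart p (⌈(1 : ℝ) * 2 ^ p⌉₊ - 1) := rfl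
    rw [h2, h]
    norm_num
  rw [e2]

end Pool.Agent.U79.MG
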